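import Pool.Agent.H.MP_2fcc64_al.Model

set_option autoImplicit false
set_option maxHeartbeats 400000

universe u

namespace Pool.Agent.H.MP_2fcc64_al

open Polynomial LieSubalgebra

attribute [local instance 100] LieRing.ofAssociativeRing

variable {k : Type u} [Field k] {L : Type u} [LieRing L] [LieAlgebra k L]

def Dec {J : Type u} (B : J → LieSubalgebra k L) (A : LieSubalgebra k L) : Prop :=
  (∀ j, B j ≠ ⊥) ∧ ∃ h : ∀ j, B j ≤ A, ∀ (M : Type u) [LieRing M] [LieAlgebra k M]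
    (f : ∀ j, ↥(B j) →ₗ⁅k⁆ M), ∃! g : ↥A →ₗ⁅k⁆ M, ∀ j, g.comp (inclusion (h j)) = f j

lemma ext_span {M : Type u} [LieRing M] [LieAlgebra k M] {S : LieSubalgebra k L} {G : Set L}
    (h1 : S ≤ lieSpan k L G) (h2 : G ⊆ S) {f g : S →ₗ⁅k⁆ M}
    (h : ∀ a (ha : a ∈ G), f ⟨a, h2 ha⟩ = g ⟨a, h2 ha⟩) : f = g := by
  refine LieHom.ext fun ⟨a, ha⟩ => ?_
  have : ∀ a ∈ lieSpan k L G, ∃ ha : a ∈ S, f ⟨a, ha⟩ = g ⟨a, ha⟩ := fun a ha => by
    induction ha using lieSpan_induction with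
    | mem a ha => exact ⟨_, h a ha⟩
    | zero => exact ⟨zero_mem _, (map_zero f).trans (map_zero g).symm⟩
    | add a b _ _ p q =>
      exact ⟨add_mem p.1 q.1, (map_add f ⟨a, p.1⟩ ⟨b, q.1⟩).trans
        ((congrArg₂ _ p.2 q.2).trans (map_add g ⟨a, p.1⟩ ⟨b, q.1⟩).symm)⟩
    | smul t a _ p =>
      exact ⟨S.smul_mem t p.1, (map_smul f t ⟨a, p.1⟩).trans
        ((congrArg _ p.2).trans (map_smul g t ⟨a, p.1⟩).symm)⟩
    | lie a b _ _ p q =>
      exact ⟨S.lie_mem p.1 q.1, (f.map_lie ⟨a, p.1⟩ ⟨b, q.1⟩).trans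
        ((congrArg₂ _ p.2 q.2).trans (g.map_lie ⟨a, p.1⟩ ⟨b, q.1⟩).symm)⟩
  exact (this a (h1 ha)).2

lemma Dec.of {J : Type u} (G : J → Set L) (hne : ∀ j, ∃ a ∈ G j, a ≠ 0)
    (htop : ⊤ ≤ lieSpan k L (⋃ j, G j))
    (hex : ∀ (M : Type u) [LieRing M] [LieAlgebra k M] (f : ∀ j, ↥(lieSpan k L (G j)) →ₗ⁅k⁆ M),
      ∃ ψ : L →ₗ⁅k⁆ M, ∀ j a (h : a ∈ G j), ψ a = f j ⟨a, subset_lieSpan h⟩) :
    Dec (fun j => lieSpan k L (G j)) ⊤ := by
  refine ⟨fun j h => ?_, fun _ => le_top, fun M _ _ f => ?_⟩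
  · obtain ⟨a, ha, h0⟩ := hne j
    exact h0 ((mem_bot _).1 ((le_of_eq h : lieSpan k L (G j) ≤ ⊥) (subset_lieSpan ha)))
  · obtain ⟨ψ, hψ⟩ := hex M f
    refine ⟨ψ.comp (incl ⊤), fun j => ext_span le_rfl subset_lieSpan (hψ j),
      fun g hg => ext_span htop (Set.subset_univ _) fun a ha => ?_⟩
    obtain ⟨j, ha⟩ := Set.mem_iUnion.1 ha
    exact (LieHom.congr_fun (hg j) ⟨a, subset_lieSpan ha⟩).trans (hψ j a ha).symm

variable {J : Type u} {B : J → LieSubalgebra k L} {A : LieSubalgebra k L}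

lemma Dec.le (h : Dec B A) (j : J) : B j ≤ A := h.2.1 j

lemma Dec.disj (h : Dec B A) {i j : J} (hij : B i ≤ B j) : i = j := by
  classical
  by_contra hn
  obtain ⟨h0, hle, h⟩ := h
  obtain ⟨g, hg, -⟩ := h L fun l => if l = i then incl _ else 0
  refine h0 i ((eq_bot_iff _).2 fun a ha => ?_)
  have h1 := LieHom.congr_fun (hg i) ⟨a, ha⟩
  have h2 := LieHom.congr_fun (hg j) ⟨a, hij ha⟩
  rw [if_pos rfl] at h1
  rw [if_neg (Ne.symm hn)] at h2
  exact h1.symm.trans h2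

lemma Dec.gen (h : Dec B A) {S : LieSubalgebra k L} (hS : ∀ j, B j ≤ S) : A ≤ S := by
  obtain ⟨-, hle, h⟩ := h
  obtain ⟨g, hg, -⟩ := h S fun j => inclusion (hS j)
  have := (h L fun j => incl _).unique (y₁ := (incl S).comp g) (y₂ := incl A)
    (fun j => LieHom.ext fun a => congrArg Subtype.val (LieHom.congr_fun (hg j) a)) fun j => rfl
  intro a ha
  rw [← show (g ⟨a, ha⟩).1 = a from LieHom.congr_fun this ⟨a, ha⟩]
  exact (g ⟨a, ha⟩).2

lemma mem_line {s a : L} : a ∈ lieSpan k L {s} ↔ ∃ c : k, c • s = a := by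
  rw [← Submodule.mem_span_singleton, ← coe_lieSpan_eq_span_of_forall_lie_eq_zero (by simp)]
  rfl

lemma mem_two {x y a : L} (hr : ⁅y, x⁆ = -y) (h : a ∈ lieSpan k L {x, y}) :
    ∃ c d : k, a = c • x + d • y := by
  induction h using lieSpan_induction with
  | mem a ha => rcases ha with rfl | rfl; exacts [⟨1, 0, by simp⟩, ⟨0, 1, by simp⟩]
  | zero => exact ⟨0, 0, by simp⟩
  | add a b _ _ p q =>
    obtain ⟨c, d, rfl⟩ := p
    obtain ⟨c', d', rfl⟩ := q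
    exact ⟨c + c', d + d', by module⟩
  | smul t a _ p =>
    obtain ⟨c, d, rfl⟩ := p
    exact ⟨t * c, t * d, by module⟩
  | lie a b _ _ p q =>
    obtain ⟨c, d, rfl⟩ := p
    obtain ⟨c', d', rfl⟩ := q
    refine ⟨0, c * d' - c' * d, ?_⟩
    simp only [add_lie, lie_add, smul_lie, lie_smul, lie_self, ← lie_skew x y, hr]
    module

lemma Dec.uniq (h : Dec B A) {j : J} (hj : A ≤ B j) (i : J) : i = j ∧ B i = A :=
  have := h.disj ((h.le i).trans hj)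
  ⟨this, this ▸ le_antisymm (h.le _) (this ▸ hj)⟩

lemma Dec.line {s : L} (h : Dec B (lieSpan k L {s})) (hs : s ≠ 0) :
    ∃ j, ∀ i, i = j ∧ B i = lieSpan k L {s} := by
  obtain ⟨j⟩ : Nonempty J := by_contra fun hn =>
    hs ((mem_bot _).1 (h.gen (S := ⊥) (fun j => absurd ⟨j⟩ hn) (subset_lieSpan rfl)))
  refine ⟨j, h.uniq (lieSpan_le.2 (Set.singleton_subset_iff.2 ?_))⟩
  obtain ⟨a, ha, h0⟩ : ∃ a ∈ B j, a ≠ 0 := by_contra fun hn =>
    h.1 j ((eq_bot_iff _).2 fun a ha => by_contra fun h => hn ⟨a, ha, h⟩)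
  obtain ⟨c, rfl⟩ := mem_line.1 (h.le j ha)
  have hc : c ≠ 0 := by rintro rfl; simp at h0
  simpa [smul_smul, hc] using (B j).smul_mem c⁻¹ ha

lemma Dec.two {x y : L} (hr : ⁅y, x⁆ = -y) (h : Dec B (lieSpan k L {x, y})) (l : L →ₗ[k] k)
    (lx : l x = 0) (ly : l y = 1) (l' : L →ₗ[k] k) (lx' : l' x = 1) (ly' : l' y = 0) :
    ∃ j, ∀ i, i = j ∧ B i = lieSpan k L {x, y} := by
  have mx : x ∈ lieSpan k L {x, y} := subset_lieSpan (by simp)
  have my : y ∈ lieSpan k L {x, y} := subset_lieSpan (by simp)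
  by_cases hab : ∀ j, ∀ a ∈ B j, ∀ b ∈ B j, ⁅a, b⁆ = 0
  · exfalso
    obtain ⟨g, hg, -⟩ := h.2.2 k fun j =>
      { l ∘ₗ (B j).toSubmodule.subtype with
        map_lie' := fun {a b} => by
          change l ⁅a.1, b.1⁆ = l a * l b - l b * l a
          rw [hab j _ a.2 _ b.2, map_zero]; ring }
    have gy : g ⟨y, my⟩ = 0 := by
      have : (⟨y, my⟩ : lieSpan k L {x, y}) = ⁅(⟨x, mx⟩ : lieSpan k L {x, y}), ⟨y, my⟩⁆ :=
        Subtype.ext (by rw [coe_bracket, ← lie_skew, hr, neg_neg])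
      rw [this, g.map_lie, Ring.lie_def, mul_comm, sub_self]
    have := h.gen (S := lieSpan k L {x + g ⟨x, mx⟩ • y}) (fun j a ha => by
      obtain ⟨c, d, e⟩ := mem_two hr (h.le j ha)
      have h1 : g ⟨a, h.le j ha⟩ = l a := LieHom.congr_fun (hg j) ⟨a, ha⟩
      rw [show (⟨a, h.le j ha⟩ : lieSpan k L {x, y}) = c • ⟨x, mx⟩ + d • ⟨y, my⟩ from Subtype.ext e,
        e, map_add, map_smul, map_smul, gy] at h1
      simp [lx, ly] at h1
      exact mem_line.2 ⟨c, by rw [e, ← h1]; module⟩) my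
    obtain ⟨c, hc⟩ := mem_line.1 this
    have h1 := congrArg l hc
    have h2 := congrArg l' hc
    simp [lx, ly, lx', ly'] at h1 h2
    simp [h2] at h1
  · push Not at hab
    obtain ⟨j, a, ha, b, hb, h0⟩ := hab
    refine ⟨j, h.uniq (lieSpan_le.2 ?_)⟩
    obtain ⟨c, d, rfl⟩ := mem_two hr (h.le j ha)
    obtain ⟨c', d', rfl⟩ := mem_two hr (h.le j hb)
    have e : ⁅c • x + d • y, c' • x + d' • y⁆ = (c * d' - c' * d) • y := by
      simp only [add_lie, lie_add, smul_lie, lie_smul, lie_self, ← lie_skew x y, hr]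
      module
    have hd : c * d' - c' * d ≠ 0 := fun h => h0 (by rw [e, h, zero_smul])
    refine Set.insert_subset ?_ (Set.singleton_subset_iff.2 ?_)
    · have := (B j).smul_mem (c * d' - c' * d)⁻¹ (sub_mem ((B j).smul_mem d' ha) ((B j).smul_mem d hb))
      rwa [show d' • _ - _ = (c * d' - c' * d) • x by module, smul_smul, inv_mul_cancel₀ hd,
        one_smul] at this
    · have := (B j).smul_mem (c * d' - c' * d)⁻¹ ((B j).lie_mem ha hb)
      rwa [e, smul_smul, inv_mul_cancel₀ hd, one_smul] at this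

lemma transfer {S S' : LieSubalgebra k L} {x y : L} (hS : S = lieSpan k L {x, y}) (hr : ⁅y, x⁆ = -y)
    (e : Nonempty (S ≃ₗ⁅k⁆ S')) : ∃ a ∈ S', ∃ b ∈ S', ⁅b, a⁆ = -b ∧ (y = 0 → b = 0) ∧
    S' ≤ lieSpan k L {a, b} := by
  obtain ⟨e⟩ := e
  subst hS
  have mx : x ∈ lieSpan k L {x, y} := subset_lieSpan (by simp)
  have my : y ∈ lieSpan k L {x, y} := subset_lieSpan (by simp)
  refine ⟨_, (e ⟨x, mx⟩).2, _, (e ⟨y, my⟩).2, ?_, ?_, fun z hz => ?_⟩
  · rw [← coe_bracket, ← e.map_lie, show ⁅(⟨y, my⟩ : lieSpan k L {x, y}), (⟨x, mx⟩ : lieSpan k L {x, y})⁆ =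
      -⟨y, my⟩ from Subtype.ext hr, map_neg]; rfl
  · rintro rfl
    exact congrArg Subtype.val (map_zero e)
  · obtain ⟨⟨a, ha⟩, h⟩ := e.surjective ⟨z, hz⟩
    obtain ⟨c, d, rfl⟩ := mem_two hr ha
    rw [show (⟨_, ha⟩ : lieSpan k L {x, y}) = c • ⟨x, mx⟩ + d • ⟨y, my⟩ from rfl, map_add, map_smul,
      map_smul] at h
    rw [show z = _ from congrArg Subtype.val h.symm]
    exact add_mem (LieSubalgebra.smul_mem _ _ (subset_lieSpan (by simp)))
      (LieSubalgebra.smul_mem _ _ (subset_lieSpan (by simp)))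

lemma exL (k : Type u) [Field k] : ∃ (L : Type u) (_ : LieRing L) (_ : LieAlgebra k L) (x y s t : L),
    ⁅y, x⁆ = -y ∧ ⊤ ≤ lieSpan k L {x, y, s, t} ∧ ∀ (M : Type u) [LieRing M] [LieAlgebra k M]
      (a b c d : M), ⁅b, a⁆ = -b → ∃ ψ : L →ₗ⁅k⁆ M, ψ x = a ∧ ψ y = b ∧ ψ s = c ∧ ψ t = d := by
  let F := FreeLieAlgebra k (Fin 4)
  let o : Fin 4 → F := FreeLieAlgebra.of k
  let I : LieIdeal k F := LieSubmodule.lieSpan k F {⁅o 1, o 0⁆ + o 1}
  let π : F →ₗ⁅k⁆ F ⧸ I := { I.toSubmodule.mkQ with map_lie' := rfl }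
  have hπ : Function.Surjective π := I.toSubmodule.mkQ_surjective
  refine ⟨F ⧸ I, inferInstance, inferInstance, π (o 0), π (o 1), π (o 2), π (o 3), ?_,
    fun z _ => ?_, fun M _ _ a b c d h => ?_⟩
  · rw [← π.map_lie, eq_neg_iff_add_eq_zero, ← map_add]
    exact (Submodule.Quotient.mk_eq_zero _).2 (LieSubmodule.subset_lieSpan rfl)
  · obtain ⟨z, rfl⟩ := hπ z
    let S := lieSpan k (F ⧸ I) {π (o 0), π (o 1), π (o 2), π (o 3)}
    let g : F →ₗ⁅k⁆ S := FreeLieAlgebra.lift k fun i => ⟨π (o i), subset_lieSpan (by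
      fin_cases i <;> simp)⟩
    have : (incl S).comp g = π := FreeLieAlgebra.hom_ext fun i => by
      simp [g, o]
    exact (LieHom.congr_fun this z : _ = π z) ▸ (g z).2
  · let g : F →ₗ⁅k⁆ M := FreeLieAlgebra.lift k ![a, b, c, d]
    have hg : ∀ i, g (o i) = ![a, b, c, d] i := FreeLieAlgebra.lift_of_apply _
    have hI : I ≤ g.ker := LieSubmodule.lieSpan_le.2 (by
      rintro _ rfl
      simp [hg, h])
    refine ⟨{ I.toSubmodule.liftQ g.toLinearMap hI with map_lie' := fun {p q} => ?_ },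
      hg 0, hg 1, hg 2, hg 3⟩
    obtain ⟨p, rfl⟩ := hπ p
    obtain ⟨q, rfl⟩ := hπ q
    exact g.map_lie p q

end Pool.Agent.H.MP_2fcc64_al
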