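import Mathlib

set_option autoImplicit false
set_option maxHeartbeats 400000

universe u

namespace Pool.Agent.H.MP_2fcc64_al

open Polynomial

variable {k : Type u} [Field k]

noncomputable def sg : k[X] →+* k[X] := (taylorEquiv (-1 : k)).toRingEquiv.toRingHom

lemma sg_inj : Function.Injective (sg : k[X] → k[X]) := (taylorEquiv (-1 : k)).injective

@[simp] lemma sg_X : sg (X : k[X]) = X - 1 :=
  (taylor_X (-1 : k)).trans (by simp [sub_eq_add_neg])
@[simp] lemma sg_C (a : k) : sg (C a) = C a := taylor_C (-1 : k) a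

lemma sg_unit {p : k[X]} (h : IsUnit (sg p)) : IsUnit p :=
  (MulEquiv.isUnit_map (taylorEquiv (-1 : k)).toMulEquiv).1 h

noncomputable def oY (f : k[X][X]) : k[X][X] := X * f.map sg

noncomputable def D (a b : k) (f : k[X][X]) : k[X][X] := C (C a) * C X * f + C (C b) * oY f

noncomputable def ep (f : k[X][X]) : k[X] := X * f.eval (-1) + (derivative f).eval (-1)

lemma ep_oY (f : k[X][X]) : ep (oY f) = - sg (ep f) := by
  have : ∀ g : k[X][X], (g.map sg).eval (-1) = sg (g.eval (-1)) := fun g => by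
    rw [← eval₂_hom, eval_map]; simp
  simp [ep, oY, this]; ring

lemma ep_add (f g : k[X][X]) : ep (f + g) = ep f + ep g := by simp [ep]; ring
lemma ep_C (c : k[X]) (f : k[X][X]) : ep (C c * f) = c * ep f := by simp [ep]; ring

noncomputable def gq (q : k[X][X]) (n : ℕ) : k[X][X] := oY^[n] q

lemma gq_succ (q : k[X][X]) (n : ℕ) : gq q (n + 1) = oY (gq q n) := Function.iterate_succ_apply' _ _ _

lemma gq_deg {q : k[X][X]} (h : q ≠ 0) (n : ℕ) : gq q n ≠ 0 ∧ (gq q n).natDegree = n + q.natDegree ∧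
    (IsUnit (gq q n).leadingCoeff → IsUnit q.leadingCoeff) := by
  induction n with
  | zero => simp [gq, h]
  | succ n ih =>
    have h0 : (gq q n).map sg ≠ 0 := (Polynomial.map_ne_zero_iff sg_inj).2 ih.1
    rw [gq_succ, oY]
    refine ⟨mul_ne_zero X_ne_zero h0, ?_, fun hu => ih.2.2 (sg_unit ?_)⟩
    · rw [natDegree_X_mul h0, natDegree_map_eq_of_injective sg_inj, ih.2.1]; omega
    · rwa [leadingCoeff_mul, leadingCoeff_X, one_mul, leadingCoeff_map_of_injective sg_inj] at hu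

noncomputable def TN (q : k[X][X]) (N : ℕ) : Submodule k[X] k[X][X] :=
  Submodule.span k[X] (gq q '' {n | n < N})

noncomputable def T (q : k[X][X]) : Submodule k[X] k[X][X] := Submodule.span k[X] (Set.range (gq q))

lemma T_oY {q f : k[X][X]} (h : f ∈ T q) : oY f ∈ T q := by
  induction h using Submodule.span_induction with
  | mem f hf => obtain ⟨n, rfl⟩ := hf; exact Submodule.subset_span ⟨n + 1, gq_succ q n⟩
  | zero => simp [oY]
  | add f g _ _ h1 h2 => simpa [oY, mul_add] using add_mem h1 h2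
  | smul c f _ h =>
    have := (T q).smul_mem (sg c) h
    rw [smul_eq_C_mul] at this ⊢
    simpa [oY, mul_left_comm] using this

lemma T_TN {q f : k[X][X]} (h : f ∈ T q) : ∃ N, f ∈ TN q N := by
  have m : ∀ {a b}, a ≤ b → TN q a ≤ TN q b := fun h =>
    Submodule.span_mono (Set.image_mono fun n hn => lt_of_lt_of_le hn h)
  induction h using Submodule.span_induction with
  | mem f hf => obtain ⟨n, rfl⟩ := hf; exact ⟨n + 1, Submodule.subset_span ⟨n, by simp, rfl⟩⟩
  | zero => exact ⟨0, zero_mem _⟩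
  | add f g _ _ h1 h2 =>
    obtain ⟨a, h1⟩ := h1
    obtain ⟨b, h2⟩ := h2
    exact ⟨max a b, add_mem (m (le_max_left _ _) h1) (m (le_max_right _ _) h2)⟩
  | smul c f _ h => obtain ⟨a, h⟩ := h; exact ⟨a, Submodule.smul_mem _ _ h⟩

lemma TN_deg {q f : k[X][X]} (hq : q ≠ 0) {N : ℕ} (h : f ∈ TN q N) :
    f.degree < ((N + q.natDegree : ℕ) : WithBot ℕ) := by
  refine mem_degreeLT.1 ((Submodule.span_le (p := degreeLT _ _)).2 ?_ h)
  rintro _ ⟨n, hn, rfl⟩
  refine mem_degreeLT.2 ?_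
  rw [degree_eq_natDegree (gq_deg hq n).1, (gq_deg hq n).2.1]
  exact_mod_cast Nat.add_lt_add_right hn _

lemma TN_top {q : k[X][X]} (N : ℕ) : ∀ f ∈ TN q N, f = 0 ∨
    ∃ n c r, c ≠ 0 ∧ r ∈ TN q n ∧ f = C c * gq q n + r := by
  induction N with
  | zero => intro f h; left; simpa [TN] using h
  | succ N ih =>
    intro f h
    rw [TN, show {n | n < N + 1} = insert N {n | n < N} from Set.ext fun n => by simp; omega,
      Set.image_insert_eq, Submodule.mem_span_insert] at h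
    obtain ⟨c, r, hr, rfl⟩ := h
    by_cases hc : c = 0
    · simpa [hc] using ih r hr
    · exact Or.inr ⟨N, c, r, hc, hr, by rw [smul_eq_C_mul]⟩

lemma T_top {q f : k[X][X]} (hq : q ≠ 0) (h : f ∈ T q) (hf : f ≠ 0) : ∃ n c r, r ∈ TN q n ∧
    f = C c * gq q n + r ∧ f.natDegree = n + q.natDegree ∧
    f.leadingCoeff = c * (gq q n).leadingCoeff := by
  obtain ⟨N, h⟩ := T_TN h
  obtain ⟨n, c, r, hc, hr, rfl⟩ := (TN_top N f h).resolve_left hf
  have h1 : r.degree < (C c * gq q n).degree := by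
    rw [degree_C_mul hc, degree_eq_natDegree (gq_deg hq n).1, (gq_deg hq n).2.1]
    exact TN_deg hq hr
  refine ⟨n, c, r, hr, rfl, ?_, ?_⟩
  · rw [natDegree_add_eq_left_of_degree_lt h1, natDegree_C_mul hc, (gq_deg hq n).2.1]
  · rw [leadingCoeff_add_of_degree_lt' h1, leadingCoeff_mul, leadingCoeff_C]

lemma noncyc {q : k[X][X]} (h0 : ep q = 0) (hu : 1 - C X * (X + 1) ∈ T q)
    (hv : (X + 1) ^ 2 ∈ T q) : False := by
  have m : (X + 1 : k[X][X]).Monic := monic_X_add_C 1
  have hq : q ≠ 0 := by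
    rintro rfl
    have : T (0 : k[X][X]) ≤ ⊥ := Submodule.span_le.2 (by
      rintro _ ⟨n, rfl⟩
      exact Function.iterate_fixed (by simp [oY]) n)
    exact (m.pow 2).ne_zero (this hv)
  obtain ⟨n, c, -, -, -, -, h1⟩ := T_top hq hv (m.pow 2).ne_zero
  have hl : IsUnit q.leadingCoeff :=
    (gq_deg hq n).2.2 (isUnit_of_mul_isUnit_right (h1 ▸ (m.pow 2).leadingCoeff ▸ isUnit_one))
  have e : (1 - C X * (X + 1) : k[X][X]) = C (-X) * X + C (1 - X) := by simp; ring
  have hX : (-X : k[X]) ≠ 0 := neg_ne_zero.2 X_ne_zero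
  have d1 : (C (-X) * X + C (1 - X) : k[X][X]).natDegree = 1 := natDegree_linear hX
  rw [e] at hu
  obtain ⟨n, c, r, hr, h2, h3, h4⟩ := T_top hq hu (fun h => by rw [h] at d1; simp at d1)
  rw [d1] at h3
  rw [leadingCoeff_linear hX] at h4
  by_cases hd : q.natDegree = 0
  · rw [eq_C_of_natDegree_eq_zero hd] at h0 hl
    simp [ep] at h0
    simp [h0] at hl
  · obtain rfl : n = 0 := by omega
    obtain rfl : r = 0 := by simpa [TN] using hr
    have h5 := congrArg (fun p => (p.coeff 0).eval 0) h2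
    have h6 := congrArg (eval 0) h4
    have h7 : q.leadingCoeff.eval 0 ≠ 0 := (hl.map (evalRingHom (0 : k))).ne_zero
    simp [gq, h7] at h6
    simp [h6] at h5

lemma D_fix {a b : k} {p : k[X][X]} (h : D a b p = p) : p = 0 := by
  have h1 : (C a * X - 1 : k[X]) ≠ 0 := fun h => by simpa using congrArg (eval 0) h
  have : ∀ n, p.coeff n = 0 := fun n => by
    induction n with
    | zero =>
      have := congrArg (coeff · 0) h
      simp only [D, oY, ← C_mul, coeff_add, coeff_C_mul, coeff_X_mul_zero] at this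
      exact (mul_eq_zero.1 (by linear_combination this)).resolve_left h1
    | succ n ih =>
      have := congrArg (coeff · (n + 1)) h
      simp only [D, oY, ← C_mul, coeff_add, coeff_C_mul, coeff_X_mul, coeff_map, ih, map_zero] at this
      exact (mul_eq_zero.1 (by linear_combination this)).resolve_left h1
  exact Polynomial.ext this

def N (k : Type u) [Field k] : Type u := k × k × k[X][X]

noncomputable instance : AddCommGroup (N k) := inferInstanceAs (AddCommGroup (k × k × k[X][X]))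
noncomputable instance : Module k (N k) := inferInstanceAs (Module k (k × k × k[X][X]))

noncomputable def br (m n : k × k × k[X][X]) : k × k × k[X][X] :=
  (0, m.1 * n.2.1 - n.1 * m.2.1, D m.1 m.2.1 n.2.2 - D n.1 n.2.1 m.2.2)

lemma smul_CC (a : k) (f : k[X][X]) : a • f = C (C a) * f := by
  rw [Algebra.smul_def]; rfl

noncomputable instance : LieRing (N k) where
  bracket := br
  add_lie (x y z : k × k × k[X][X]) := show br (x + y) z = br x z + br y z by
    refine Prod.ext ?_ (Prod.ext ?_ ?_) <;> simp [br, D, oY] <;> ring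
  lie_add (x y z : k × k × k[X][X]) := show br x (y + z) = br x y + br x z by
    refine Prod.ext ?_ (Prod.ext ?_ ?_) <;> simp [br, D, oY] <;> ring
  lie_self (x : k × k × k[X][X]) := show br x x = 0 by simp [br]
  leibniz_lie (x y z : k × k × k[X][X]) := show br x (br y z) = br (br x y) z + br y (br x z) by
    refine Prod.ext ?_ (Prod.ext ?_ ?_) <;> simp [br, D, oY] <;> ring

noncomputable instance : LieAlgebra k (N k) where
  lie_smul t (x y : k × k × k[X][X]) := show br x (t • y) = t • br x y by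
    refine Prod.ext ?_ (Prod.ext ?_ ?_) <;> simp [br, D, oY, smul_CC] <;> ring

def mk (a b : k) (f : k[X][X]) : N k := (a, b, f)

lemma ex (n : N k) : ∃ a b f, n = mk a b f := ⟨n.1, n.2.1, n.2.2, rfl⟩
lemma mk_inj {a b a' b' : k} {f f' : k[X][X]} : mk a b f = mk a' b' f' ↔ a = a' ∧ b = b' ∧ f = f' :=
  Prod.ext_iff.trans (and_congr_right' Prod.ext_iff)
lemma mk_add (a b a' b' : k) (f f' : k[X][X]) :
    mk a b f + mk a' b' f' = mk (a + a') (b + b') (f + f') := rfl
lemma mk_neg (a b : k) (f : k[X][X]) : -mk a b f = mk (-a) (-b) (-f) := rfl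
lemma mk_sub (a b a' b' : k) (f f' : k[X][X]) :
    mk a b f - mk a' b' f' = mk (a - a') (b - b') (f - f') := rfl
lemma mk_smul (t a b : k) (f : k[X][X]) : t • mk a b f = mk (t * a) (t * b) (C (C t) * f) :=
  smul_CC t f ▸ rfl
lemma mk_zero : (0 : N k) = mk 0 0 0 := rfl
lemma mk_lie (a b a' b' : k) (f f' : k[X][X]) :
    ⁅mk a b f, mk a' b' f'⁆ = mk 0 (a * b' - a' * b) (D a b f' - D a' b' f) := rfl

def K : LieSubalgebra k (N k) where
  carrier := {n | ep n.2.2 = 0}
  zero_mem' := by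
    change ep 0 = 0
    simp [ep]
  add_mem' := fun {m n} h1 h2 => (ep_add _ _).trans (by rw [h1, h2, add_zero])
  smul_mem' := fun t n h => by
    change ep (t • n.2.2) = 0
    rw [smul_CC, ep_C, h, mul_zero]
  lie_mem' := fun {m n} h1 h2 => by
    have : ∀ a b f, ep f = 0 → ep (D a b f : k[X][X]) = 0 := fun a b f h => by
      rw [D, ep_add, ← C_mul, ep_C, ep_C, ep_oY, h]; simp
    have e : ∀ f g : k[X][X], ep (f - g) = ep f - ep g := fun f g => by simp [ep]; ring
    exact (e _ _).trans (by rw [this _ _ _ h1, this _ _ _ h2, sub_zero])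

lemma mem_K {a b : k} {f : k[X][X]} : mk a b f ∈ K ↔ ep f = 0 := Iff.rfl

lemma TC {q f : k[X][X]} (c : k[X]) (h : f ∈ T q) : C c * f ∈ T q :=
  smul_eq_C_mul c ▸ (T q).smul_mem c h

lemma fin {g h : N k} {q : k[X][X]} (l m : k) (h0 : ep q = 0) (hb : ⁅g, h⁆ = l • g + m • h + mk 0 0 q ∨
    ⁅g, h⁆ = l • g + m • h) {S : Set (N k)} (hS : ∀ n ∈ S, ∃ α β : k, ∃ f ∈ T q, n = α • g + β • h + mk 0 0 f)
    (hx : mk 1 0 0 ∈ LieSubalgebra.lieSpan k _ S) (hy : mk 0 1 0 ∈ LieSubalgebra.lieSpan k _ S)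
    (hu : mk 0 0 (1 - C X * (X + 1)) ∈ LieSubalgebra.lieSpan k _ S)
    (hv : mk 0 0 ((X + 1) ^ 2) ∈ LieSubalgebra.lieSpan k _ S) : False := by
  have hD : ∀ (n : N k) f, f ∈ T q → ∃ f' ∈ T q, ⁅n, mk 0 0 f⁆ = mk 0 0 f' := fun n f hf => by
    obtain ⟨a, b, p, rfl⟩ := ex n
    exact ⟨_, add_mem (TC (C a * X) hf) (TC (C b) (T_oY hf)), by simp [mk_lie, D]⟩
  obtain ⟨q', hq', hb⟩ : ∃ q' ∈ T q, ⁅g, h⁆ = l • g + m • h + mk 0 0 q' :=
    hb.elim (fun h => ⟨q, Submodule.subset_span ⟨0, rfl⟩, h⟩)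
      fun h => ⟨0, zero_mem _, h.trans (add_zero _).symm⟩
  have key : ∀ n ∈ LieSubalgebra.lieSpan k _ S, ∃ α β : k, ∃ f ∈ T q,
      n = α • g + β • h + mk 0 0 f := fun n hn => by
    induction hn using LieSubalgebra.lieSpan_induction with
    | mem n hn => exact hS n hn
    | zero => exact ⟨0, 0, 0, zero_mem _, by simp [← mk_zero]⟩
    | add m n _ _ h1 h2 =>
      obtain ⟨a, b, f, hf, rfl⟩ := h1
      obtain ⟨a', b', f', hf', rfl⟩ := h2
      refine ⟨a + a', b + b', f + f', add_mem hf hf', ?_⟩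
      rw [show mk 0 0 (f + f') = mk 0 0 f + mk 0 0 f' by simp [mk_add]]
      module
    | smul t n _ h1 =>
      obtain ⟨a, b, f, hf, rfl⟩ := h1
      refine ⟨t * a, t * b, _, TC (C t) hf, ?_⟩
      rw [show mk 0 0 (C (C t) * f) = t • mk 0 0 f by simp [mk_smul]]
      module
    | lie m n _ _ h1 h2 =>
      obtain ⟨a, b, f, hf, rfl⟩ := h1
      obtain ⟨a', b', f', hf', rfl⟩ := h2
      obtain ⟨f1, hf1, e1⟩ := hD (a • g + b • h + mk 0 0 f) f' hf'
      obtain ⟨f2, hf2, e2⟩ := hD (a' • g + b' • h) f hf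
      refine ⟨(a * b' - a' * b) * l, (a * b' - a' * b) * m, _,
        sub_mem (add_mem (TC (C (a * b' - a' * b)) hq') hf1) hf2, ?_⟩
      rw [lie_add, e1, add_lie, ← lie_skew (mk 0 0 f), e2,
        show mk 0 0 (C (C (a * b' - a' * b)) * q' + f1 - f2) =
          (a * b' - a' * b) • mk 0 0 q' + mk 0 0 f1 - mk 0 0 f2 by simp [mk_smul, mk_add, mk_sub]]
      simp only [add_lie, lie_add, smul_lie, lie_smul, lie_self, ← lie_skew h g, hb]
      module
  obtain ⟨a, b, p, rfl⟩ := ex g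
  obtain ⟨a', b', p', rfl⟩ := ex h
  obtain ⟨x1, x2, _, -, e1⟩ := key _ hx
  obtain ⟨y1, y2, _, -, e2⟩ := key _ hy
  simp only [mk_smul, mk_add, mk_inj] at e1 e2
  have z : ∀ f, mk 0 0 f ∈ LieSubalgebra.lieSpan k _ S → f ∈ T q := fun f hf => by
    obtain ⟨z1, z2, f', hf', e3⟩ := key _ hf
    simp only [mk_smul, mk_add, mk_inj] at e3
    obtain rfl : z1 = 0 := by grind
    obtain rfl : z2 = 0 := by grind
    simpa [e3.2.2] using hf'
  exact noncyc h0 (z _ hu) (z _ hv)

lemma main {g1 g2 g3 : N k} (k1 : g1 ∈ K) (k2 : g2 ∈ K) (k3 : g3 ∈ K) (hr : ⁅g2, g1⁆ = -g2)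
    (hx : mk 1 0 0 ∈ LieSubalgebra.lieSpan k _ {g1, g2, g3})
    (hy : mk 0 1 0 ∈ LieSubalgebra.lieSpan k _ {g1, g2, g3})
    (hu : mk 0 0 (1 - C X * (X + 1)) ∈ LieSubalgebra.lieSpan k _ {g1, g2, g3})
    (hv : mk 0 0 ((X + 1) ^ 2) ∈ LieSubalgebra.lieSpan k _ {g1, g2, g3}) : False := by
  obtain ⟨a1, b1, p1, rfl⟩ := ex g1
  obtain ⟨a2, b2, p2, rfl⟩ := ex g2
  obtain ⟨a3, b3, p3, rfl⟩ := ex g3
  have hr' := hr
  simp only [mk_lie, mk_neg, mk_inj] at hr'
  obtain rfl : a2 = 0 := by simpa using hr'.1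
  by_cases hb : b2 = 0
  · subst hb
    obtain rfl : p2 = 0 := D_fix (a := a1) (b := b1) (by have := hr'.2.2; simp only [D] at this ⊢; simp at this; linear_combination -this)
    have k4 := add_mem (sub_mem (K.lie_mem k1 k3) (K.smul_mem a1 k3)) (K.smul_mem a3 k1)
    simp only [mk_lie, mk_smul, mk_sub, mk_add, mem_K] at k4
    refine fin (g := mk a1 b1 p1) (h := mk a3 b3 p3) (-a3) a1 k4 (Or.inl ?_) ?_ hx hy hu hv
    · simp only [mk_lie, mk_smul, mk_add, mk_inj]
      exact ⟨by ring, by ring, by simp only [C_neg]; ring⟩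
    · rintro n (rfl | rfl | rfl)
      · exact ⟨1, 0, 0, zero_mem _, by simp [← mk_zero]⟩
      · exact ⟨0, 0, 0, zero_mem _, by simp [← mk_zero]⟩
      · exact ⟨0, 1, 0, zero_mem _, by simp [← mk_zero]⟩
  · obtain rfl : a1 = 1 := by grind
    have k4 := sub_mem (sub_mem k3 (K.smul_mem a3 k1)) (K.smul_mem ((b3 - a3 * b1) / b2) k2)
    simp only [mk_smul, mk_sub, mem_K] at k4
    refine fin (g := mk 1 b1 p1) (h := mk 0 b2 p2) 0 1 k4 (Or.inr ?_) ?_ hx hy hu hv
    · rw [← lie_skew, hr]; simp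
    · rintro n (rfl | rfl | rfl)
      · exact ⟨1, 0, 0, zero_mem _, by simp [← mk_zero]⟩
      · exact ⟨0, 1, 0, zero_mem _, by simp [← mk_zero]⟩
      · refine ⟨a3, (b3 - a3 * b1) / b2, _, Submodule.subset_span ⟨0, rfl⟩, ?_⟩
        simp only [mk_smul, mk_add, mk_inj, gq]
        exact ⟨by ring, by field_simp; ring, by simp⟩

end Pool.Agent.H.MP_2fcc64_al
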